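import Mathlib
import Pool.Agent.Lib.MP_624fe1_nt.Main

/-!
# Parametric solutions of `a^4+b^4+c^4+d^4=e^4` have even degree at least four

A parametric solution over `ℚ` with no common factor has `deg e` equal to the largest of the five
degrees; we show that this degree is even and at least four.  So the threefold contains no rational
curve of odd degree and no conic over `ℚ` with a rational parametrisation (outside the coordinate
hyperplanes `a = 0`, `b = 0`, `c = 0`, `d = 0`).
-/

set_option autoImplicit false
open Polynomial

namespace Pool.Agent.Results.MP_624fe1_nt.NoDegreeTwo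

/-- Let `a, b, c, d, e` be rational polynomials with `a, b, c, d` nonzero, with
`a^4 + b^4 + c^4 + d^4 = e^4` identically, without a common factor, and not all constant multiples
of one polynomial.  Then `e` has the largest degree among the five, this degree is even, and it is
at least four. -/
theorem result (a b c d e : ℚ[X]) (ha : a ≠ 0) (hb : b ≠ 0) (hc : c ≠ 0) (hd : d ≠ 0)
    (h : a ^ 4 + b ^ 4 + c ^ 4 + d ^ 4 = e ^ 4)
    (hcop : ∀ p : ℚ[X], p ∣ a → p ∣ b → p ∣ c → p ∣ d → p ∣ e → IsUnit p)
    (hn : ¬ ∃ p : ℚ[X], ∃ x y z w v : ℚ,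
      a = C x * p ∧ b = C y * p ∧ c = C z * p ∧ d = C w * p ∧ e = C v * p) :
    (a.natDegree ≤ e.natDegree ∧ b.natDegree ≤ e.natDegree ∧ c.natDegree ≤ e.natDegree ∧
      d.natDegree ≤ e.natDegree) ∧ Even e.natDegree ∧ 4 ≤ e.natDegree :=
  ParamFour.main ha hb hc hd h hcop hn

end Pool.Agent.Results.MP_624fe1_nt.NoDegreeTwo
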